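import Pool.Agent.MP_db5b97_nt.H31.SpecT
import Pool.Agent.MP_db5b97_nt.H21.NT2

/-! Lattice versions of the existence theorem, the norm theorem and Hilbert's theorem. -/

namespace Pool.Agent.MP_db5b97_nt.H97

open H85 H31 NumberField

theorem lift {M A : Type} [AddCommGroup M] [AddCommGroup A] [Module.Free ℤ M]
    (S : AddSubgroup (M × A)) (h : ∀ m, ∃ a, (m, a) ∈ S) : ∃ f : Hm M A, ∀ m, (m, f m) ∈ S := by
  obtain ⟨g, hg⟩ := Module.projective_lifting_property
    ((AddMonoidHom.fst M A).comp S.subtype).toIntLinearMap (LinearMap.id (R := ℤ) (M := M))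
    fun m => (h m).elim fun a ha => ⟨⟨(m, a), ha⟩, rfl⟩
  refine ⟨Hm.of (((AddMonoidHom.snd M A).comp S.subtype).comp g.toAddMonoidHom), fun m => ?_⟩
  have e : (g m : M × A).1 = m := LinearMap.congr_fun hg m
  have := (g m).2
  rw [← Prod.mk.eta (p := (g m : M × A)), e] at this
  exact this

theorem lift_range {M A B : Type} [AddCommGroup M] [AddCommGroup A] [AddCommGroup B]
    [Module.Free ℤ M] (φ : A →+ B) (b : Hm M B) (h : ∀ m, ∃ a, b m = φ a) :
    ∃ u : Hm M A, b = Hm.post φ u := by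
  obtain ⟨u, hu⟩ := lift (AddMonoidHom.eqLocus (b.hom.comp (AddMonoidHom.fst M A))
    (φ.comp (AddMonoidHom.snd M A))) h
  exact ⟨u, Hm.ext hu⟩

section Cyc

variable {G A : Type} [Group G] [AddCommGroup A] [DistribMulAction G A]

theorem Nm_add (σ : G) (a b : ℕ) (x : A) : Nm σ (a + b) x = Nm σ a x + σ ^ a • Nm σ b x := by
  simp only [Nm_apply, Finset.sum_range_add, Finset.smul_sum, pow_add, mul_smul]

theorem Nm_mod (σ : G) {n : ℕ} {x : A} (h : Nm σ n x = 0) (a : ℕ) :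
    Nm σ a x = Nm σ (a % n) x := by
  have : ∀ c k, Nm σ (c + n * k) x = Nm σ c x := fun c k => by
    induction k with
    | zero => simp
    | succ k ih => rw [Nat.mul_succ, ← add_assoc, Nm_add, h, smul_zero, add_zero, ih]
  conv_lhs => rw [← Nat.mod_add_div a n, this]

theorem cyc [Finite G] (σ : G) (hσ : ∀ s, s ∈ Subgroup.zpowers σ) (h9 : H90 A (⊤ : Subgroup G))
    (x : A) (h : Nm σ (Nat.card G) x = 0) : ∃ u, x = Df σ u := by
  have ho : orderOf σ = Nat.card G := orderOf_eq_card_of_forall_mem_zpowers hσ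
  have key : ∀ a b : ℕ, σ ^ a = σ ^ b → Nm σ a x = Nm σ b x := fun a b e => by
    have := pow_eq_pow_iff_modEq.1 e
    rw [ho] at this
    rw [Nm_mod σ h a, Nm_mod σ h b, this]
  have hi : ∀ s : G, ∃ i : ℕ, σ ^ i = s := fun s => mem_powers_iff_mem_zpowers.2 (hσ s)
  choose i hi using hi
  obtain ⟨a, ha⟩ := h9 (fun s => Nm σ (i s) x) fun s _ t _ => by
    rw [key (i (s * t)) (i s + i t) (by rw [pow_add, hi, hi, hi]), Nm_add, hi]
  refine ⟨a, ?_⟩
  rw [Df_apply, ← ha σ trivial, key (i σ) 1 (by rw [hi, pow_one])]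
  simp [Nm_apply]

end Cyc

theorem inv_mod {p R j a : ℕ} (hp : p.Prime) (h : ¬ p ^ (j + 1) ∣ a) :
    ∃ z : ℤ, ((p ^ R : ℕ) : ℤ) ∣ a * z - (p ^ j : ℕ) := by
  obtain ⟨i, -, hi⟩ := (Nat.dvd_prime_pow hp).1 (Nat.gcd_dvd_right a (p ^ R))
  have hij : i ≤ j := by
    by_contra hc
    exact h ((pow_dvd_pow p (by omega)).trans (hi ▸ Nat.gcd_dvd_left a (p ^ R)))
  obtain ⟨c, rfl⟩ := Nat.exists_eq_add_of_le hij
  have e := Nat.gcd_eq_gcd_ab a (p ^ R)
  rw [hi] at e
  refine ⟨a.gcdA (p ^ R) * (p ^ c : ℕ), -(a.gcdB (p ^ R) * (p ^ c : ℕ)), ?_⟩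
  rw [pow_add, Nat.cast_mul, e]
  ring

theorem rowHAM : RowHA2 → RowHA3 → RowHAM := by
  intro h2 h3 p q R g0 k E Λ M _ _ _ _ _ _ _ lam ζ ψ _ _ hc hψ
  have := hc.gal
  refine ⟨fun j x hx hd => ?_, fun b hb ho => ?_, fun x hx => ?_⟩
  · have hz : ∀ w, ∃ z : ℤ, x w ≠ 0 → ((p ^ R : ℕ) : ℤ) ∣ ψ w * z - (p ^ j : ℕ) := fun w => by
      by_cases h : p ^ (j + 1) ∣ ψ w
      · exact ⟨0, fun h' => absurd (hx w h) h'⟩
      · exact (inv_mod hc.pp h).imp fun _ h _ => h
    choose z hz using hz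
    have hz' : ∀ m w, ((p ^ R : ℕ) : ℤ) ∣
        ψ w * (z w * Zt.val (x w m)) - (p ^ j : ℕ) * Zt.val (x w m) := fun m w => by
      by_cases h : x w = 0
      · simp [h]
      · rw [← mul_assoc, ← sub_mul]
        exact (hz w h).mul_right _
    let S : AddSubgroup (M × Un k) :=
      { carrier := {y | y.2 ∈ U1 k q ∧
          ∀ w, ((p ^ R : ℕ) : ℤ) ∣ ψ w * ord w.1 y.2 - (p ^ j : ℕ) * Zt.val (x w y.1)}
        zero_mem' := ⟨zero_mem _, fun w => by simp⟩
        add_mem' := fun {a b} ha hb => ⟨add_mem ha.1 hb.1, fun w => by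
          have := dvd_add (ha.2 w) (hb.2 w)
          simp only [Prod.fst_add, Prod.snd_add, map_add]
          rwa [mul_add, mul_add, add_sub_add_comm]⟩
        neg_mem' := fun {a} ha => ⟨neg_mem ha.1, fun w => by
          have := (ha.2 w).neg_right
          simp only [Prod.fst_neg, Prod.snd_neg, map_neg]
          rwa [mul_neg, mul_neg, neg_sub_neg, ← neg_sub]⟩ }
    obtain ⟨e, he⟩ := lift S fun m => by
      let D : Dv k q := Finsupp.onFinset x.fs.support (fun w => z w * Zt.val (x w m))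
        fun w hw => Finsupp.mem_support_iff.2 fun h => hw (by
          have : x w = 0 := h
          simp [this])
      have e1 : Ps ψ D = ∑ w ∈ x.fs.support, ψ w * (z w * Zt.val (x w m)) := by
        rw [Ps, Finsupp.liftAddHom_apply, Finsupp.onFinset_sum _ fun _ => map_zero _]
        rfl
      have e2 : ∑ w ∈ x.fs.support, Zt.val (x w m) = 0 := by
        have : Dg.deg x m = 0 := by rw [hd]; rfl
        rw [← map_sum, ← Hm.sum_apply]
        exact (congrArg Zt.val this).trans (map_zero _)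
      obtain ⟨y, hy, hy'⟩ := h2 p q R g0 k E Λ lam ζ ψ hc hψ D (by
        have := Finset.dvd_sum fun w (_ : w ∈ x.fs.support) => hz' m w
        rwa [Finset.sum_sub_distrib, ← Finset.mul_sum, e2, mul_zero, sub_zero, ← e1] at this)
      refine ⟨y, hy, fun w => ?_⟩
      have := dvd_sub (hz' m w) (hy' w)
      rwa [show D w = z w * Zt.val (x w m) from rfl, mul_sub, sub_sub_sub_cancel_left] at this
    exact ⟨e, fun m => (he m).1, fun m => (he m).2⟩
  · exact lift_range _ _ fun m => h3 p q R g0 k E Λ lam ζ ψ hc hψ (b m) (hb m) (ho m)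
  · have : Finite Λ := Nat.finite_of_card_ne_zero (hc.card ▸ pow_ne_zero _ hc.pp.ne_zero)
    have : FaithfulSMul Λ E := hc.gal.faithful
    refine lift_range _ _ fun m => cyc lam hc.gen (NT2.h90 E Λ ⊤) (x m) ?_
    rw [hc.card]
    exact DFunLike.congr_fun hx m

end Pool.Agent.MP_db5b97_nt.H97
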